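import Pool.Agent.L5helper70.OD.Back2
import Pool.Agent.L5helper70.QF.Mot

/-!
# Schur-finiteness of the motives of conic bundles and of families of quadrics of odd rank
-/

set_option autoImplicit false

open CategoryTheory MonoidalCategory AlgebraicGeometry MvPolynomial Matrix Pool.Agent.TH137.DG
  Pool.Agent.Y116.UV Pool.Agent.Z125.UN Pool.Agent.L5helper70.QF Pool.Agent.L5helper70.OD

namespace Pool.Agent.Results.MP_fc2ced_ag.ConicBundles

universe v u

section defs

variable {k : Type} [Field k]

/-- The complement of the family of cones `xᵀ S(z) x = 0` over conics, parametrized by the affine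
space of dimension `m`, in the affine space of dimension `m + 3`. -/
noncomputable def conics {m : ℕ} (S : Matrix (Fin 3) (Fin 3) (MvPolynomial (Fin m) k)) : Sch k :=
  aff k (Localization.Away (qf S))

/-- The complement of the hypersurface `f(z) s ^ 2 + u w = 0` in the affine space of dimension
`m + 3`. -/
noncomputable def special {m : ℕ} (f : MvPolynomial (Fin m) k) : Sch k :=
  aff k (Localization.Away
    (MvPolynomial.C f * X 0 ^ 2 + X 1 * X 2 : MvPolynomial (Fin 3) (MvPolynomial (Fin m) k)))

/-- The closed subscheme `xᵀ S_0 x = … = xᵀ S_m x = 0` of the affine space of dimension `N`. -/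
noncomputable def inter {m N : ℕ} (S : Fin (m + 1) → Matrix (Fin N) (Fin N) k) : Sch k :=
  aff k (MvPolynomial (Fin N) k ⧸ Ideal.span (Set.range fun j => qf (S j)))

/-- The hypersurface `y_0 xᵀ S_0 x + … + y_m xᵀ S_m x = 1` in the affine space of dimension
`N + m + 1`. -/
noncomputable def hyp {m N : ℕ} (S : Fin (m + 1) → Matrix (Fin N) (Fin N) k) : Sch k :=
  aff k (MvPolynomial (Fin (m + 1)) (MvPolynomial (Fin N) k) ⧸
    Ideal.span {∑ l, MvPolynomial.C (qf (S l)) * X l - 1})

/-- The linear system of the quadratic forms given by symmetric matrices `S_0, …, S_m` has odd generic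
rank: the rank of `S_0 + z_1 S_1 + … + z_m S_m` over `k(z_1, …, z_m)` is odd. -/
def OddRank {m N : ℕ} (S : Fin (m + 1) → Matrix (Fin N) (Fin N) k) : Prop :=
  (∀ j, (S j).IsSymm) ∧
    Odd ((pmat S).map (algebraMap _ (FractionRing (MvPolynomial (Fin m) k)))).rank

end defs

variable {k : Type} [Field k] {C : Type u} [Category.{v} C] [MonoidalCategory C]

/-- The cone `C = {xᵀ S x = 0}` over a family of nondegenerate quadrics of odd rank `r` over
`X = Spec A`, contained in the affine space of dimension `r` over `X`: its motive with compact support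
is `Mc X (r-1)[2r-2]`, because an odd-dimensional nondegenerate quadric has the rational motive of the
projective space. -/
structure HasOddQuadrics (D : Motives k C) : Prop where
  odd : ∀ (A : Type) [CommRing A] [Algebra k A] [Algebra.FiniteType k A] (r : ℕ)
    (S : Matrix (Fin r) (Fin r) A), Odd r → S.IsSymm → IsUnit S.det →
    Nonempty (D.Mc (aff k (Cone S)) ≅ tw D.L (r - 1) (D.Mc (aff k A)))

variable [SymmetricCategory C] [Preadditive C] [Linear ℚ C] [Limits.HasZeroObject C] [HasShift C ℤ]
  [∀ n : ℤ, (shiftFunctor C n).Additive] [Pretriangulated C] {D : Motives k C}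

lemma odd_sf (hD : IsMotives D) (hO : HasOddQuadrics D) :
    OddP fun X : Sch k => IsSchurFinite (D.Mc X) where
  odd A _ _ _ r S hr hs hu h := by
    rw [sf_iso (hO.odd A r S hr hs hu), sf_tw hD]
    exact h

/-- the complement and the cone -/
lemma compl_iff (hD : IsMotives D) {m : ℕ} (Q : MvPolynomial (Fin 3) (MvPolynomial (Fin m) k)) :
    IsSchurFinite (D.M (aff k (Localization.Away Q))) ↔
      IsSchurFinite (D.Mc (aff k (MvPolynomial (Fin 3) (MvPolynomial (Fin m) k) ⧸
        Ideal.span {Q}))) := by
  have hB := bnd_sf hD
  have i1 : Algebra.FiniteType k (MvPolynomial (Fin 3) (MvPolynomial (Fin m) k)) :=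
    Algebra.FiniteType.trans (S := MvPolynomial (Fin m) k) inferInstance inferInstance
  have i2 : Algebra.Smooth k (MvPolynomial (Fin 3) (MvPolynomial (Fin m) k)) :=
    Algebra.Smooth.comp k (MvPolynomial (Fin m) k) _
  have i3 : Algebra.Smooth (MvPolynomial (Fin 3) (MvPolynomial (Fin m) k))
    (Localization.Away Q) := Algebra.Smooth.of_isLocalization_Away Q
  have i4 : Algebra.Smooth k (Localization.Away Q) :=
    Algebra.Smooth.comp k (MvPolynomial (Fin 3) (MvPolynomial (Fin m) k)) _
  rw [sf_dual hD]
  have h0 : IsSchurFinite (D.Mc (aff k (MvPolynomial (Fin 3) (MvPolynomial (Fin m) k)))) :=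
    p_poly hB (Fin 3) (hB.space m)
  exact ⟨fun h => hB.closed _ _ (ft_aff True) (triple_away Q) h0 h,
    fun h => ring_open hB Q h h0⟩

section statements

variable (D)

/-- The motives of the smooth separated schemes of finite type and of dimension at most `n` are
Schur-finite. -/
def SFDim (n : ℕ) : Prop := ∀ X : Sch k, FT True X → Smooth X.hom →
  topologicalKrullDim X.left ≤ n → IsSchurFinite (D.M X)

/-- The motives of the complements of the families of cones over conics, parametrized by the affine
space of dimension `m` and generically nondegenerate, are Schur-finite. -/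
def SFConic (m : ℕ) : Prop := ∀ S : Matrix (Fin 3) (Fin 3) (MvPolynomial (Fin m) k),
  S.IsSymm → S.det ≠ 0 → IsSchurFinite (D.M (conics S))

/-- The same for the special families `f(z) s ^ 2 + u w = 0`, `f ≠ 0`. -/
def SFSpecial (m : ℕ) : Prop := ∀ f : MvPolynomial (Fin m) k, f ≠ 0 →
  IsSchurFinite (D.M (special f))

/-- The motives with compact support of the families of cones over quadrics, in any number of
variables, which have odd generic rank, over the integral affine bases of dimension at most `m` whose
motive with compact support is Schur-finite, are Schur-finite. -/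
def SFFam (m : ℕ) : Prop := ∀ (B : Type) [CommRing B] [IsDomain B] [Algebra k B]
  [Algebra.FiniteType k B] (N : ℕ) (S : Matrix (Fin N) (Fin N) B), ringKrullDim B ≤ m →
  IsSchurFinite (D.Mc (aff k B)) → S.IsSymm → Odd (S.map (algebraMap B (FractionRing B))).rank →
  IsSchurFinite (D.Mc (aff k (Cone S)))

/-- The motives with compact support of the intersections of `m + 1` quadrics of odd generic rank in
affine spaces of any dimension are Schur-finite. -/
def SFInter (m : ℕ) : Prop := ∀ (N : ℕ) (S : Fin (m + 1) → Matrix (Fin N) (Fin N) k), OddRank S →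
  IsSchurFinite (D.Mc (inter S))

/-- The motives of the smooth hypersurfaces `∑ y_j xᵀ S_j x = 1` for `m + 1` quadratic forms of odd
generic rank are Schur-finite. -/
def SFHyp (m : ℕ) : Prop := ∀ (N : ℕ) (S : Fin (m + 1) → Matrix (Fin N) (Fin N) k), OddRank S →
  IsSchurFinite (D.M (hyp S))

end statements

/-- **Schur-finiteness of motives: conic bundles and quadrics of odd rank.** Let `k` be a perfect
field of characteristic different from two. For each `n` the following are equivalent.

1. The motives of the smooth schemes of dimension at most `n` are Schur-finite.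
2. The motives of the complements of the families of cones over conics, parametrized by the affine
  space of dimension `n + 1` and generically nondegenerate, are Schur-finite.
3. The motives of the complements of the hypersurfaces `f(z_1, …, z_{n+1}) s ^ 2 + u w = 0`, `f ≠ 0`,
  are Schur-finite.
4. The motives with compact support of the families of quadrics of odd generic rank over all integral
  affine bases of dimension at most `n + 1`, whose motive with compact support is Schur-finite, are
  Schur-finite.
5. The motives with compact support of the intersections of `n + 2` quadrics of odd generic rank are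
  Schur-finite.
6. The motives of the smooth hypersurfaces `∑ y_j xᵀ S_j x = 1` for `n + 2` quadratic forms of odd
  generic rank are Schur-finite.

For `n = 1` all the six statements are true. -/
theorem result [PerfectField k] (h2 : (2 : k) ≠ 0) (hD : IsMotives D) (hS : HasDoubleCovers D)
    (hO : HasOddQuadrics D) :
    (∀ n : ℕ, List.TFAE [SFDim D n, SFConic D (n + 1), SFSpecial D (n + 1), SFFam D (n + 1),
      SFInter D (n + 1), SFHyp D (n + 1)]) ∧
    SFConic D 2 ∧ SFFam D 2 ∧ SFInter D 2 ∧ SFHyp D 2 := by
  have hB := bnd_sf hD
  have hQ := dbl1_sf hS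
  have hO' := odd_sf hD hO
  have hu : IsUnit (2 : k) := isUnit_iff_ne_zero.mpr h2
  have dim_of_hyper : ∀ n : ℕ, (∀ f : MvPolynomial (Fin (n + 1)) k,
      Pr (fun X : Sch k => IsSchurFinite (D.Mc X))
        (fun C _ _ v => aeval v f = 0 : Cond k (Fin (n + 1)))) → SFDim D n := by
    intro n h X hX hs hn
    have h3 := dimLt_of_hyper hB h
    rw [hD.duality X hX hs]
    refine of_affine_dim hB (fun A _ _ _ hA => h3 A ?_) X hX hn
    have h4 : ((n + 1 : ℕ) : WithBot ℕ∞) = (n : WithBot ℕ∞) + 1 := by push_cast; rfl
    rw [h4]
    exact ENat.WithBot.lt_add_one_iff.mpr hA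
  have main : ∀ n : ℕ, List.TFAE [SFDim D n, SFConic D (n + 1), SFSpecial D (n + 1),
      SFFam D (n + 1), SFInter D (n + 1), SFHyp D (n + 1)] := by
    intro n
    tfae_have 1 → 4 := by
      intro h B _ _ _ _ N S hB1 hB2 hS1 hS2
      exact cone_odd hB hQ hO' hu (dimLe_of hD h) B hB1 hB2 S hS1 hS2
    tfae_have 4 → 2 := by
      intro h S hS1 hS2
      refine (compl_iff hD (qf S)).mpr (h _ 3 S ?_ (hB.space _) hS1 ?_)
      · rw [MvPolynomial.ringKrullDim_of_isNoetherianRing, ringKrullDim_eq_zero_of_field, zero_add,
          Nat.card_eq_fintype_card, Fintype.card_fin]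
      · have h3 : IsUnit (S.map (algebraMap (MvPolynomial (Fin (n + 1)) k)
            (FractionRing (MvPolynomial (Fin (n + 1)) k)))) := by
          rw [isUnit_iff_isUnit_det, isUnit_iff_ne_zero]
          have h4 : (S.map (algebraMap (MvPolynomial (Fin (n + 1)) k)
              (FractionRing (MvPolynomial (Fin (n + 1)) k)))).det =
              algebraMap _ (FractionRing (MvPolynomial (Fin (n + 1)) k)) S.det :=
            (RingHom.map_det _ _).symm
          rw [h4]
          exact (map_ne_zero_iff _ (IsFractionRing.injective (MvPolynomial (Fin (n + 1)) k) _)).mpr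
            hS2
        rw [rank_of_isUnit _ h3, Fintype.card_fin]
        decide
    tfae_have 2 → 3 := by
      intro h f hf
      have h3 := h (conic f) (conic_symm f) (conic_det h2 f hf)
      rw [conics, qf_conic h2] at h3
      exact h3
    tfae_have 3 → 1 := by
      intro h
      refine dim_of_hyper n (hyper_of_conic hB h2 fun f hf => ?_)
      have h3 := (compl_iff hD _).mp (h f hf)
      rw [← qf_conic h2] at h3
      exact h3
    tfae_have 5 ↔ 6 := by
      refine forall_congr' fun N => forall_congr' fun S => forall_congr' fun hS => ?_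
      have i2 := smooth_jou fun j => qf (S j)
      have i3 : Algebra.Smooth k (Jou fun j => qf (S j)) :=
        Algebra.Smooth.comp k (MvPolynomial (Fin N) k) _
      have h3 : IsSchurFinite (D.M (hyp S)) ↔ IsSchurFinite (D.Mc (aff k (Jou fun j => qf (S j)))) :=
        sf_dual hD (A := Jou fun j => qf (S j))
      rw [h3]
      exact ⟨jou_of hB (fun j => qf (S j)) (hB.space N),
        of_jou hB.toUni (fun j => qf (S j)) (hB.space N)⟩
    tfae_have 1 → 6 := by
      intro h N S hS
      have i2 := smooth_jou fun j => qf (S j)
      have i3 : Algebra.Smooth k (Jou fun j => qf (S j)) :=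
        Algebra.Smooth.comp k (MvPolynomial (Fin N) k) _
      have h3 : IsSchurFinite (D.M (hyp S)) ↔ IsSchurFinite (D.Mc (aff k (Jou fun j => qf (S j)))) :=
        sf_dual hD (A := Jou fun j => qf (S j))
      exact h3.mpr (hyp_of_dim hB hQ hO' hu (dimLe_of hD h) S hS.1 hS.2)
    tfae_have 6 → 1 := by
      intro h
      refine dim_of_hyper n (hyper_of_hyp hB h2 fun N S hS hr => ?_)
      have i2 := smooth_jou fun j => qf (S j)
      have i3 : Algebra.Smooth k (Jou fun j => qf (S j)) :=
        Algebra.Smooth.comp k (MvPolynomial (Fin N) k) _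
      have h3 : IsSchurFinite (D.M (hyp S)) ↔ IsSchurFinite (D.Mc (aff k (Jou fun j => qf (S j)))) :=
        sf_dual hD (A := Jou fun j => qf (S j))
      have h4 := (repr_true (R := k) (σ := Fin N)).jou' (fun j => qf (S j)) (fun j => qf (S j))
        fun l => aeval_X_left_apply _
      refine ((pr_iff hB h4).mpr (h3.mp (h N S ⟨hS, hr⟩))).congr ?_
      intro C _ _ v
      rw [true_and]
    tfae_finish
  have h1 : SFDim D 1 := fun X hX hs hn => hD.curves X hX hs hn
  exact ⟨main, ((main 1).out 0 1).mp h1, ((main 1).out 0 3).mp h1, ((main 1).out 0 4).mp h1,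
    ((main 1).out 0 5).mp h1⟩

end Pool.Agent.Results.MP_fc2ced_ag.ConicBundles
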