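import Pool.Agent.L5helper70.QF.Over

/-!
# Schur-finiteness of the motives of double coverings and of intersections of quadrics
-/

set_option autoImplicit false

open CategoryTheory MonoidalCategory AlgebraicGeometry MvPolynomial Pool.Agent.TH137.DG
  Pool.Agent.Y116.UV Pool.Agent.Z125.UN Pool.Agent.L5helper70.QF

namespace Pool.Agent.Results.MP_fc2ced_ag.DoubleCoversAndQuadrics

universe v u

section defs

variable {k : Type} [Field k]

/-- The double covering `w ^ 2 = f(z_1, …, z_n)` of the complement of `f = 0` in the affine space. -/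
noncomputable def dcov {n : ℕ} (f : MvPolynomial (Fin n) k) : Sch k :=
  aff k (AdjoinRoot (Polynomial.X ^ 2 -
    Polynomial.C (algebraMap _ (Localization.Away f) f) : Polynomial (Localization.Away f)))

/-- The hypersurface `y_1 q_1(x) + … + y_m q_m(x) = 1` in the affine space of dimension `N + m`. -/
noncomputable def hyp {m N : ℕ} (q : Fin m → MvPolynomial (Fin N) k) : Sch k :=
  aff k (MvPolynomial (Fin m) (MvPolynomial (Fin N) k) ⧸ Ideal.span {∑ l, C (q l) * X l - 1})

/-- The closed subscheme `q_1 = … = q_m = 0` of the affine space of dimension `N`. -/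
noncomputable def inter {m N : ℕ} (q : Fin m → MvPolynomial (Fin N) k) : Sch k :=
  aff k (MvPolynomial (Fin N) k ⧸ Ideal.span (Set.range q))

/-- The family of affine quadrics: the closed subscheme `Q(z, x) = 0` of the affine space of dimension
`n + N`; `Q` is a polynomial in the `N` variables `x` with coefficients in `k[z_1, …, z_n]`. -/
noncomputable def fam {n N : ℕ} (Q : MvPolynomial (Fin N) (MvPolynomial (Fin n) k)) : Sch k :=
  aff k (MvPolynomial (Fin N) (MvPolynomial (Fin n) k) ⧸ Ideal.span {Q})

/-- The complement of the zero set of the form `y_1 q_1(x, y) + … + y_m q_m(x, y)` in the affine space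
of dimension `N + m`. -/
noncomputable def compl {m N : ℕ} (q : Fin m → MvPolynomial (Fin N ⊕ Fin m) k) : Sch k :=
  aff k (Localization.Away (∑ j, X (Sum.inr j) * q j))

end defs

variable {k : Type} [Field k] {C : Type u} [Category.{v} C] [MonoidalCategory C]
  [SymmetricCategory C] [Preadditive C] [Linear ℚ C] [Limits.HasZeroObject C] [HasShift C ℤ]
  [∀ n : ℤ, (shiftFunctor C n).Additive] [Pretriangulated C] {D : Motives k C}

lemma dcov_sf (h2 : IsUnit (2 : k)) (hD : IsMotives D) {n : ℕ} (f : MvPolynomial (Fin n) k) :
    IsSchurFinite (D.M (dcov f)) ↔ IsSchurFinite (D.Mc (dcov f)) := by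
  have i1 : Algebra.FiniteType k (Localization.Away f) :=
    Algebra.FiniteType.trans (S := MvPolynomial (Fin n) k) inferInstance inferInstance
  have i3 : Algebra.Smooth (MvPolynomial (Fin n) k) (Localization.Away f) :=
    Algebra.Smooth.of_isLocalization_Away f
  have i4 : Algebra.Smooth k (Localization.Away f) :=
    Algebra.Smooth.comp k (MvPolynomial (Fin n) k) _
  have h3 : IsUnit (2 : Localization.Away f) := by
    have h := h2.map (algebraMap k (Localization.Away f))
    rwa [map_ofNat] at h
  have i5 := smooth_sq h3 (IsLocalization.Away.algebraMap_isUnit (S := Localization.Away f) f)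
  have i6 : Algebra.Smooth k (Sq (Localization.Away f) (algebraMap _ (Localization.Away f) f)) :=
    Algebra.Smooth.comp k (Localization.Away f) _
  exact sf_dual hD

lemma hyp_sf (hD : IsMotives D) {m N : ℕ} (q : Fin m → MvPolynomial (Fin N) k) :
    IsSchurFinite (D.M (hyp q)) ↔ IsSchurFinite (D.Mc (hyp q)) := by
  have i2 := smooth_jou q
  have i3 : Algebra.Smooth k (Jou q) := Algebra.Smooth.comp k (MvPolynomial (Fin N) k) _
  exact sf_dual hD (A := Jou q)

lemma compl_sf (hD : IsMotives D) {m N : ℕ} (q : Fin m → MvPolynomial (Fin N ⊕ Fin m) k) :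
    IsSchurFinite (D.M (compl q)) ↔ IsSchurFinite (D.Mc (compl q)) := by
  have i1 : Algebra.Smooth (MvPolynomial (Fin N ⊕ Fin m) k) (Localization.Away
    (∑ j, X (Sum.inr j) * q j : MvPolynomial (Fin N ⊕ Fin m) k)) :=
    Algebra.Smooth.of_isLocalization_Away
      (∑ j, X (Sum.inr j) * q j : MvPolynomial (Fin N ⊕ Fin m) k)
  have i4 : Algebra.Smooth k (Localization.Away
      (∑ j, X (Sum.inr j) * q j : MvPolynomial (Fin N ⊕ Fin m) k)) :=
    Algebra.Smooth.comp k (MvPolynomial (Fin N ⊕ Fin m) k) _
  exact sf_dual hD

section statements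

variable (D)

/-- The motives of the smooth double coverings `w ^ 2 = f(z_1, …, z_n)`, `f ≠ 0`, are
Schur-finite. -/
def SFCov (n : ℕ) : Prop := ∀ f : MvPolynomial (Fin n) k, IsSchurFinite (D.M (dcov f))

/-- The motives of the smooth hypersurfaces `∑ y_j q_j(x) = 1` are Schur-finite for all `m`
polynomials `q_j` of degree at most two in any number of variables. -/
def SFHyp (m : ℕ) : Prop := ∀ (N : ℕ) (q : Fin m → MvPolynomial (Fin N) k),
  (∀ j, (q j).totalDegree ≤ 2) → IsSchurFinite (D.M (hyp q))

/-- The motives with compact support of the intersections of `m` affine quadrics in affine spaces of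
any dimension are Schur-finite. -/
def SFInter (m : ℕ) : Prop := ∀ (N : ℕ) (q : Fin m → MvPolynomial (Fin N) k),
  (∀ j, (q j).totalDegree ≤ 2) → IsSchurFinite (D.Mc (inter q))

/-- The motives with compact support of the families `Q(z, x) = 0` of affine quadrics over the affine
space of dimension `n`, in any number of variables, are Schur-finite. -/
def SFFam (n : ℕ) : Prop := ∀ (N : ℕ) (Q : MvPolynomial (Fin N) (MvPolynomial (Fin n) k)),
  Q.totalDegree ≤ 2 → IsSchurFinite (D.Mc (fam Q))

/-- The motives of the complements of the cubic cones `∑ y_j q_j(x, y) = 0` are Schur-finite for all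
`m` quadratic forms `q_j` in any number of variables `x` and the `m` variables `y`. -/
def SFCub (m : ℕ) : Prop := ∀ (N : ℕ) (q : Fin m → MvPolynomial (Fin N ⊕ Fin m) k),
  (∀ j, (q j).IsHomogeneous 2) → IsSchurFinite (D.M (compl q))

/-- The motives of the smooth separated schemes of finite type and of dimension at most `n` are
Schur-finite. -/
def SFDim (n : ℕ) : Prop := ∀ X : Sch k, FT True X → Smooth X.hom →
  topologicalKrullDim X.left ≤ n → IsSchurFinite (D.M X)

end statements

/-- **Schur-finiteness of motives: double coverings and quadrics.** Let `k` be a perfect field of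
characteristic different from two. For each `n` the following are equivalent.

1. The motives of the smooth double coverings `w ^ 2 = f(z_1, …, z_n)`, `f ≠ 0`, are Schur-finite.
2. The motives of the smooth hypersurfaces `∑ y_j q_j(x) = 1` for `n + 1` polynomials `q_j` of degree
  at most two in any number of variables are Schur-finite.
3. The motives with compact support of the intersections of `n + 1` affine quadrics
  `q_0 = … = q_n = 0`, in any number of variables, are Schur-finite.
4. The motives with compact support of the families `Q(z, x) = 0` of affine quadrics over the affine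
  space of dimension `n`, in any number of variables, are Schur-finite.
5. The motives of the complements of the cones over the cubic hypersurfaces
  `y_0 q_0(x, y) + … + y_n q_n(x, y) = 0`, which contain the linear subspace `y = 0` of codimension
  `n + 1`, are Schur-finite.

The statements for `n + 1` imply that the motives of the smooth schemes of dimension at most `n` are
Schur-finite, and follow from the Schur-finiteness for the smooth schemes of dimension at most
`n + 1`. -/
theorem result [PerfectField k] (h2 : (2 : k) ≠ 0) (hD : IsMotives D) (hS : HasSquareRoots D) :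
    (∀ n : ℕ, List.TFAE [SFCov D n, SFHyp D (n + 1), SFInter D (n + 1), SFFam D n,
      SFCub D (n + 1)]) ∧
    ∀ n : ℕ, (SFDim D (n + 1) → SFCov D (n + 1)) ∧ (SFCov D (n + 1) → SFDim D n) := by
  have hB := bnd_sf hD
  have hQ := dbl_sf hD hS
  have hu : IsUnit (2 : k) := isUnit_iff_ne_zero.mpr h2
  have e1 : ∀ n : ℕ, SFCov D n ↔ DC (fun X : Sch k => IsSchurFinite (D.Mc X)) n := by
    intro n
    rw [dc_iff hB hQ hu n]
    exact forall_congr' fun f => dcov_sf hu hD f
  have e2 : ∀ m : ℕ, SFHyp D m ↔ HY (fun X : Sch k => IsSchurFinite (D.Mc X)) m := by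
    intro m
    rw [hy_iff hB m]
    exact forall_congr' fun N => forall_congr' fun q => forall_congr' fun _ => hyp_sf hD q
  have e3 : ∀ m : ℕ, SFInter D m ↔ HY (fun X : Sch k => IsSchurFinite (D.Mc X)) m :=
    fun m => (hy_iff' hB m).symm
  have e4 : ∀ n : ℕ, SFFam D n ↔ QFam (fun X : Sch k => IsSchurFinite (D.Mc X)) n :=
    fun n => (qfam_iff hB n).symm
  have e5 : ∀ m : ℕ, SFCub D m ↔ CU (fun X : Sch k => IsSchurFinite (D.Mc X)) m := by
    intro m
    rw [cu_iff hB m]
    exact forall_congr' fun N => forall_congr' fun q => forall_congr' fun _ => compl_sf hD q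
  have ht := tfae_main hB hQ hu
  refine ⟨fun n => ?_, fun n => ⟨fun h => (e1 _).mpr (dc_of_dim hB (dimLe_of hD h)),
    fun h X hX hs hn => ?_⟩⟩
  · have e6 := ht n
    rw [← e1, ← e4, ← e2, ← e5] at e6
    have e7 := (e3 (n + 1)).trans (e2 (n + 1)).symm
    tfae_have 1 ↔ 4 := e6.out 0 1
    tfae_have 1 ↔ 2 := e6.out 0 2
    tfae_have 1 ↔ 5 := e6.out 0 3
    tfae_have 3 ↔ 2 := e7
    tfae_finish
  · have h3 := dimLt_of_dc hB hu ((e1 _).mp h)
    rw [hD.duality X hX hs]
    refine of_affine_dim hB (fun A _ _ _ hA => h3 A ?_) X hX hn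
    have h4 : ((n + 1 : ℕ) : WithBot ℕ∞) = (n : WithBot ℕ∞) + 1 := by push_cast; rfl
    rw [h4]
    exact ENat.WithBot.lt_add_one_iff.mpr hA

end Pool.Agent.Results.MP_fc2ced_ag.DoubleCoversAndQuadrics
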