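import Pool.Agent.L5helper70.GH.Int
import Pool.Agent.L5helper70.QF.Mot

/-!
# The complements of graph hypersurfaces decide the Schur-finiteness of motives over prime fields
-/

set_option autoImplicit false

open CategoryTheory MonoidalCategory AlgebraicGeometry MvPolynomial Pool.Agent.TH137.DG
  Pool.Agent.Y116.UV Pool.Agent.Z125.UN Pool.Agent.L5helper70.QF Pool.Agent.L5helper70.GH

namespace Pool.Agent.Results.MP_fc2ced_ag.GraphHypersurfaces

universe v u

section defs

variable (k : Type) [Field k]

/-- The complement of `det = 0` in the affine space of the symmetric matrices whose entries outside of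
the diagonal vanish at the pairs of vertices that are not edges of the graph `G`. -/
noncomputable def graphCompl {n : ℕ} (G : SimpleGraph (Fin n)) : Sch k :=
  aff k (Localization.Away (gMat k G).det)

/-- The closed subscheme `f_1 = … = f_m = 0` of the affine space over `k`, for polynomials with
coefficients in `ℤ`. -/
noncomputable def zeros {n m : ℕ} (f : Fin m → MvPolynomial (Fin n) ℤ) : Sch k :=
  aff k (MvPolynomial (Fin n) k ⧸ Ideal.span (Set.range fun i => map (Int.castRingHom k) (f i)))

end defs

variable {k : Type} [Field k] {C : Type u} [Category.{v} C] [MonoidalCategory C]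

/-- Let `X = Spec A`, and let `U` be the complement of `g = 0` in the affine space of dimension `n`
over `X`. If `U → X` has a section `p`, then `Mc X (n)[2n]` is a direct summand of `Mc U`: the
composition of the pull-backs along the smooth morphism `U → X` and along the regular immersion
`p : X → U` is the identity. -/
structure HasSections (D : Motives k C) : Prop where
  sect : ∀ (A : Type) [CommRing A] [Algebra k A] [Algebra.FiniteType k A] (n : ℕ)
    (g : MvPolynomial (Fin n) A) (p : Fin n → A), IsUnit (eval p g) →
    Summand (tw D.L n (D.Mc (aff k A))) (D.Mc (aff k (Localization.Away g)))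

variable [SymmetricCategory C] [Preadditive C] [Linear ℚ C] [Limits.HasZeroObject C] [HasShift C ℤ]
  [∀ n : ℤ, (shiftFunctor C n).Additive] [Pretriangulated C] {D : Motives k C}

lemma sec_sf (hD : IsMotives D) (hS : HasSections D) :
    Sec fun X : Sch k => IsSchurFinite (D.Mc X) where
  sect A _ _ _ n g p hp h := by
    obtain ⟨s, r, hs⟩ := hS.sect A n g p hp
    exact (sf_tw hD _ n).mp (sf_retract s r hs h)

lemma smooth_graph {n : ℕ} (G : SimpleGraph (Fin n)) :
    Algebra.Smooth k (Localization.Away (gMat k G).det) := by
  have i1 : Algebra.Smooth (MvPolynomial (GPos G) k) (Localization.Away (gMat k G).det) :=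
    Algebra.Smooth.of_isLocalization_Away (gMat k G).det
  exact Algebra.Smooth.comp k (MvPolynomial (GPos G) k) _

lemma trip_sf (hD : IsMotives D) (hS : HasSections D)
    (h : ∀ (n : ℕ) (G : SimpleGraph (Fin n)), IsSchurFinite (D.M (graphCompl k G))) (a b c : ℕ)
    (H : Finset (Fin a × Fin b × Fin c)) : IsSchurFinite (D.Mc (aff k (Trip k H))) := by
  have h1 : GC (R := k) fun X : Sch k => IsSchurFinite (D.Mc X) :=
    gc_of (bnd_sf hD) fun n G => by
      have i1 := smooth_graph (k := k) G
      exact (sf_dual hD).mp (h n G)
  exact trip_of_gc (bnd_sf hD) (sec_sf hD hS) h1 H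

/-- **Schur-finiteness of motives and graph hypersurfaces.** For a graph `G` on `n` vertices let
`graphCompl k G` be the complement of the hypersurface `det = 0` in the affine space of the symmetric
matrices over `k` with the zero pattern given by `G`; in other linear coordinates this is the zero set
of the spanning tree polynomial of the cone over `G`.

1. If the motives of the complements `graphCompl k G` of all graphs are Schur-finite, then the motives
  with compact support of all affine schemes that are defined by polynomials with coefficients in `ℤ`
  are Schur-finite.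
2. If `k` is a prime field, the motives of all smooth separated schemes of finite type over `k` are
  Schur-finite if and only if the motives of the complements `graphCompl k G` are. -/
theorem result (hD : IsMotives D) (hS : HasSections D) :
    ((∀ (n : ℕ) (G : SimpleGraph (Fin n)), IsSchurFinite (D.M (graphCompl k G))) →
      ∀ (n m : ℕ) (f : Fin m → MvPolynomial (Fin n) ℤ), IsSchurFinite (D.Mc (zeros k f))) ∧
    ((⊥ : Subfield k) = ⊤ →
      ((∀ (n : ℕ) (G : SimpleGraph (Fin n)), IsSchurFinite (D.M (graphCompl k G))) ↔
        ∀ X : Sch k, FT True X → Smooth X.hom → IsSchurFinite (D.M X))) := by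
  refine ⟨fun h n m f => ?_, fun hk => ⟨fun h X hX hs => ?_, fun h n G => ?_⟩⟩
  · exact int_affine (bnd_sf hD).toUni (trip_sf hD hS h) f
  · rw [hD.duality X hX hs]
    exact of_affine (bnd_sf hD).toUni
      (fun A _ _ _ => prime_case hk (bnd_sf hD).toUni (trip_sf hD hS h) A) X hX
  · have i1 := smooth_graph (k := k) G
    exact h _ (ft_aff True) (smooth_aff inferInstance)

end Pool.Agent.Results.MP_fc2ced_ag.GraphHypersurfaces
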