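import Pool.Agent.L5helper70.QF.Over

/-!
# Schur-finiteness of the motives of families of intersections of quadrics
-/

set_option autoImplicit false

open CategoryTheory MonoidalCategory AlgebraicGeometry MvPolynomial Pool.Agent.TH137.DG
  Pool.Agent.Y116.UV Pool.Agent.Z125.UN Pool.Agent.L5helper70.QF

namespace Pool.Agent.Results.MP_fc2ced_ag.QuadricFamilies

universe v u

/-- The closed subscheme `Q_0 = … = Q_r = 0` of the affine space of dimension `N` over `Spec B`, as a
scheme over `k`. -/
noncomputable def inter (k : Type) [Field k] {B : Type} [CommRing B] [Algebra k B] {m N : ℕ}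
    (Q : Fin m → MvPolynomial (Fin N) B) : Sch k :=
  aff k (MvPolynomial (Fin N) B ⧸ Ideal.span (Set.range Q))

/-- The hypersurface `y_0 Q_0(x) + … + y_r Q_r(x) = 1` in the affine space over `Spec B` with the
coordinates `x` and `y`, as a scheme over `k`. -/
noncomputable def hyp (k : Type) [Field k] {B : Type} [CommRing B] [Algebra k B] {m N : ℕ}
    (Q : Fin m → MvPolynomial (Fin N) B) : Sch k :=
  aff k (MvPolynomial (Fin m) (MvPolynomial (Fin N) B) ⧸ Ideal.span {∑ l, C (Q l) * X l - 1})

variable {k : Type} [Field k] {C : Type u} [Category.{v} C] [MonoidalCategory C]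
  [SymmetricCategory C] [Preadditive C] [Linear ℚ C] [Limits.HasZeroObject C] [HasShift C ℤ]
  [∀ n : ℤ, (shiftFunctor C n).Additive] [Pretriangulated C] {D : Motives k C}

/-- **Schur-finiteness for families of intersections of quadrics.** Let `k` be a perfect field of
characteristic different from two.

If the motives of the smooth schemes of dimension at most `n` are Schur-finite, then for every affine
scheme `Spec B` of finite type over `k` and every `r` with `dim B + r ≤ n` the motives with compact
support of all subschemes `Q_0 = … = Q_r = 0` of the affine spaces over `B`, where the `Q_j` are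
polynomials of degree at most two in any number of variables with coefficients in `B`, are
Schur-finite; if `B` is smooth, then the motives of the smooth hypersurfaces `∑ y_j Q_j = 1` are
Schur-finite.

Without this assumption the conclusion is true if `dim B + r ≤ 1`: for families of quadrics over
curves and for the intersections of two quadrics. -/
theorem result [PerfectField k] (h2 : (2 : k) ≠ 0) (hD : IsMotives D) (hS : HasDoubleCovers D) :
    (∀ n : ℕ, (∀ X : Sch k, FT True X → Smooth X.hom → topologicalKrullDim X.left ≤ n →
        IsSchurFinite (D.M X)) →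
      ∀ (B : Type) [CommRing B] [Algebra k B] [Algebra.FiniteType k B] (r : ℕ),
        ringKrullDim B + r ≤ n → ∀ (N : ℕ) (Q : Fin (r + 1) → MvPolynomial (Fin N) B),
          (∀ j, (Q j).totalDegree ≤ 2) →
          IsSchurFinite (D.Mc (inter k Q)) ∧
          (Algebra.Smooth k B → IsSchurFinite (D.M (hyp k Q)))) ∧
    ∀ (B : Type) [CommRing B] [Algebra k B] [Algebra.FiniteType k B] (r : ℕ),
      ringKrullDim B + r ≤ 1 → ∀ (N : ℕ) (Q : Fin (r + 1) → MvPolynomial (Fin N) B),
        (∀ j, (Q j).totalDegree ≤ 2) →
        IsSchurFinite (D.Mc (inter k Q)) ∧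
        (Algebra.Smooth k B → IsSchurFinite (D.M (hyp k Q))) := by
  have hB := bnd_sf hD
  have hQ := dbl1_sf hS
  have hu : IsUnit (2 : k) := isUnit_iff_ne_zero.mpr h2
  have key : ∀ n : ℕ, (∀ X : Sch k, FT True X → Smooth X.hom → topologicalKrullDim X.left ≤ n →
        IsSchurFinite (D.M X)) →
      ∀ (B : Type) [CommRing B] [Algebra k B] [Algebra.FiniteType k B] (r : ℕ),
        ringKrullDim B + r ≤ n → ∀ (N : ℕ) (Q : Fin (r + 1) → MvPolynomial (Fin N) B),
          (∀ j, (Q j).totalDegree ≤ 2) →
          IsSchurFinite (D.Mc (inter k Q)) ∧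
          (Algebra.Smooth k B → IsSchurFinite (D.M (hyp k Q))) := by
    intro n h B _ _ _ r hr N Q hQ2
    have i0 : Algebra.FiniteType k (MvPolynomial (Fin N) B) :=
      Algebra.FiniteType.trans (S := B) inferInstance inferInstance
    have hdim := dimLe_of hD h
    -- the hypersurface and the base
    have h0 : IsSchurFinite (D.Mc (aff k (Jou Q))) ∧ IsSchurFinite (D.Mc (aff k B)) := by
      rcases dim_cases _ _ _ hr with hs | ⟨d, hd, hd2⟩
      · have hs : Subsingleton B := by
          by_contra hcon
          rw [not_subsingleton_iff_nontrivial] at hcon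
          have h3 := ringKrullDim_nonneg_of_nontrivial (R := B)
          rw [hs] at h3
          exact absurd h3 (by simp)
        have := ft_jou (R := k) Q
        exact ⟨p_empty hB _ (RingHom.codomain_trivial (algebraMap (MvPolynomial (Fin N) B) (Jou Q))),
          p_empty hB _ hs⟩
      · exact ⟨jou_of_dim hB hQ hu hdim B hd.le hd2 N Q hQ2, hdim B (hd.le.trans (by
          exact_mod_cast (by omega : d ≤ n)))⟩
    refine ⟨of_jou hB.toUni Q (p_poly_fin hB N h0.2) h0.1, fun hs => ?_⟩
    have i1 := smooth_jou Q
    have i2 : Algebra.Smooth k (MvPolynomial (Fin N) B) := Algebra.Smooth.comp k B _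
    have i3 : Algebra.Smooth k (Jou Q) := Algebra.Smooth.comp k (MvPolynomial (Fin N) B) _
    exact (sf_dual hD).mpr h0.1
  refine ⟨key, fun B _ _ _ r hr => key 1 (fun X hX hs hn => hD.curves X hX hs (by
    exact_mod_cast hn)) B r (by exact_mod_cast hr)⟩

end Pool.Agent.Results.MP_fc2ced_ag.QuadricFamilies
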